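import Pool.Agent.Beam.Trig

set_option autoImplicit false

namespace Pool.Agent.Beam

open Real Set

lemma arctan_sub_le {x y : ℝ} (h : x ≤ y) : arctan y - arctan x ≤ y - x := by
  have hm : Monotone (fun t : ℝ => t - arctan t) := by
    apply monotone_of_deriv_nonneg
    · exact differentiable_id.sub differentiable_arctan
    · intro t
      have : HasDerivAt (fun t : ℝ => t - arctan t) (1 - 1 / (1 + t ^ 2)) t :=
        (hasDerivAt_id t).fun_sub (hasDerivAt_arctan t)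
      rw [this.deriv]
      have h1 : 1 / (1 + t ^ 2) ≤ 1 := by
        rw [div_le_one (by positivity)]; nlinarith [sq_nonneg t]
      linarith
  have := hm h
  simp only at this
  linarith

lemma arctan_ge {x : ℝ} (h0 : 0 < x) (h1 : x < 1) : π / 4 - (1 - x) / (1 + x) ≤ arctan x := by
  have e : arctan 1 = arctan x + arctan ((1 - x) / (1 + x)) := by
    rw [arctan_add]
    · congr 1
      have : 1 - x * ((1 - x) / (1 + x)) ≠ 0 := by
        have h2 : x * ((1 - x) / (1 + x)) < 1 := by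
          rw [← mul_div_assoc, div_lt_one (by linarith)]; nlinarith
        linarith
      have h3 : (1 + x) ≠ 0 := by linarith
      rw [eq_div_iff this]
      field_simp
      ring
    · rw [← mul_div_assoc, div_lt_one (by linarith)]; nlinarith
  rw [arctan_one] at e
  have h2 : arctan ((1 - x) / (1 + x)) ≤ (1 - x) / (1 + x) := by
    have := arctan_sub_le (x := 0) (y := (1 - x) / (1 + x)) (by apply div_nonneg <;> linarith)
    rw [arctan_zero] at this
    linarith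
  linarith

lemma F_mono {a b : ℝ} (ha : 0 < a) (hab : a < b) :
    StrictMonoOn (fun v : ℝ => b / a * arctan (a * v) - arctan (b * v)) (Ici 0) := by
  have hb := ha.trans hab
  have hd : ∀ v : ℝ, HasDerivAt (fun v : ℝ => b / a * arctan (a * v) - arctan (b * v))
      (b / (1 + (a * v) ^ 2) - b / (1 + (b * v) ^ 2)) v := by
    intro v
    have h1 : HasDerivAt (fun v : ℝ => arctan (a * v)) (1 / (1 + (a * v) ^ 2) * (a * 1)) v :=
      (hasDerivAt_arctan (a * v)).comp v ((hasDerivAt_id v).const_mul a)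
    have h2 : HasDerivAt (fun v : ℝ => arctan (b * v)) (1 / (1 + (b * v) ^ 2) * (b * 1)) v :=
      (hasDerivAt_arctan (b * v)).comp v ((hasDerivAt_id v).const_mul b)
    refine ((h1.const_mul (b / a)).fun_sub h2).congr_deriv ?_
    field_simp
  apply strictMonoOn_of_deriv_pos (convex_Ici 0)
  · exact fun v _ => (hd v).continuousAt.continuousWithinAt
  · intro v hv
    rw [interior_Ici, mem_Ioi] at hv
    rw [(hd v).deriv]
    have : b / (1 + (b * v) ^ 2) < b / (1 + (a * v) ^ 2) := by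
      apply div_lt_div_of_pos_left hb (by positivity)
      have h1 : a * v < b * v := mul_lt_mul_of_pos_right hab hv
      have h2 : 0 < a * v := mul_pos ha hv
      nlinarith
    linarith

/-- `x = α / β` -/
lemma x_facts {c xi a b al be : ℝ} (hp : Par c xi a b al be) :
    0 < al / be ∧ al / be < 1 ∧ c ^ 2 * (1 + (al / be) ^ 2) = 2 * (1 - (al / be) ^ 2) := by
  have hal := hp.hal
  have hbe := hp.hbe
  have h1 := hp.hone
  have h2 := hp.hal2
  have hc := hp.hc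
  refine ⟨by positivity, ?_, ?_⟩
  · rw [div_lt_one hbe]
    have : al ^ 2 < be ^ 2 := by nlinarith [sq_nonneg c, sq_pos_of_pos hc]
    exact lt_of_pow_lt_pow_left₀ 2 hbe.le this
  · field_simp
    nlinarith

lemma poly1 {x : ℝ} (h0 : 0 < x) (h1 : x < 1) :
    (1 - x ^ 2) / (17 / 50 * (1 + x ^ 2)) - 1 / 2 + (5 * π / 4) * x + x * (1 - x) / (1 + x)
      ≤ 347 / 100 := by
  have hpi : π < 3.1416 := pi_lt_d4
  have hx2 : 0 < 1 + x ^ 2 := by positivity
  have hx1 : 0 < 1 + x := by linarith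
  have e1 : (5 * π / 4) * x ≤ 3.927 * x := by nlinarith
  have e2 : (1 - x ^ 2) / (17 / 50 * (1 + x ^ 2)) - 1 / 2 + 3.927 * x + x * (1 - x) / (1 + x)
      ≤ 347 / 100 := by
    have key : 0 ≤ 1.0288 - 3.8983 * x + 3.9841 * x ^ 2 + 1.9841 * x ^ 3 - 2.927 * x ^ 4 := by
      nlinarith [mul_nonneg h0.le (sub_nonneg.2 h1.le), sq_nonneg (x - 1 / 2),
        mul_nonneg (mul_nonneg h0.le (sub_nonneg.2 h1.le)) (sq_nonneg (x - 1 / 2)),
        sq_nonneg (x ^ 2 - x / 2), sq_nonneg (x ^ 2 - 1/4), mul_nonneg (mul_nonneg h0.le (sub_nonneg.2 h1.le)) (sq_nonneg (x + 1 / 2)),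
        mul_nonneg (mul_nonneg h0.le (sub_nonneg.2 h1.le)) (sq_nonneg x)]
    have e3 : (1 - x ^ 2) / (17 / 50 * (1 + x ^ 2)) - 1 / 2 + 3.927 * x + x * (1 - x) / (1 + x)
        = ((1 - x ^ 2) * (1 + x) * (50 / 17) + (-(1 / 2) + 3.927 * x) * ((1 + x ^ 2) * (1 + x))
          + x * (1 - x) * (1 + x ^ 2)) / ((1 + x ^ 2) * (1 + x)) := by
      field_simp
      ring
    rw [e3, div_le_iff₀ (by positivity)]
    nlinarith
  linarith

lemma poly2 {x : ℝ} (h0 : 0 < x) (h1 : x < 63 / 100) :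
    (1 - x ^ 2) / (4 / 5 * (1 + x ^ 2)) - 1 / 2 + (5 * π / 4) * x + x * (1 - x) / (1 + x)
      ≤ 28 / 10 := by
  have hpi : π < 3.1416 := pi_lt_d4
  have hx2 : 0 < 1 + x ^ 2 := by positivity
  have hx1 : 0 < 1 + x := by linarith
  have e1 : (5 * π / 4) * x ≤ 3.927 * x := by nlinarith
  have e2 : (1 - x ^ 2) / (4 / 5 * (1 + x ^ 2)) - 1 / 2 + 3.927 * x + x * (1 - x) / (1 + x)
      ≤ 28 / 10 := by
    have key : 0 ≤ 2.05 - 2.877 * x + 1.623 * x ^ 2 - 0.377 * x ^ 3 - 2.927 * x ^ 4 := by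
      have h2 : 0 ≤ 63 / 100 - x := by linarith
      have h3 : 0 ≤ x * (63 / 100 - x) := mul_nonneg h0.le h2
      have h4 : 0 ≤ x ^ 2 * (63 / 100 - x) := mul_nonneg (sq_nonneg x) h2
      have h5 : 0 ≤ x ^ 3 * (63 / 100 - x) := mul_nonneg (pow_nonneg h0.le 3) h2
      nlinarith
    have e3 : (1 - x ^ 2) / (4 / 5 * (1 + x ^ 2)) - 1 / 2 + 3.927 * x + x * (1 - x) / (1 + x)
        = ((1 - x ^ 2) * (1 + x) * (5 / 4) + (-(1 / 2) + 3.927 * x) * ((1 + x ^ 2) * (1 + x))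
          + x * (1 - x) * (1 + x ^ 2)) / ((1 + x ^ 2) * (1 + x)) := by
      field_simp
      ring
    rw [e3, div_le_iff₀ (by positivity)]
    nlinarith
  linarith

lemma exp_bound1 : exp 6.94 ≤ 1035 := by
  have h1 : exp 6.94 * exp 0.06 = exp 1 ^ 7 := by
    rw [← exp_add, ← exp_nat_mul]; norm_num
  have h2 : (1.06 : ℝ) ≤ exp 0.06 := by
    have := add_one_le_exp (0.06 : ℝ); norm_num at this ⊢; linarith
  have h3 : exp 1 < 2.7182818286 := exp_one_lt_d9
  have h4 : exp 1 ^ 7 ≤ 2.7182818286 ^ 7 := pow_le_pow_left₀ (exp_pos _).le h3.le 7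
  have h5 : (2.7182818286 : ℝ) ^ 7 ≤ 1097 := by norm_num
  have h6 := exp_pos (6.94 : ℝ)
  nlinarith

lemma exp_bound2 : exp 5.6 ≤ 290 := by
  have h1 : exp 5.6 * exp 0.4 = exp 1 ^ 6 := by
    rw [← exp_add, ← exp_nat_mul]; norm_num
  have h2 : (1.4 : ℝ) ≤ exp 0.4 := by
    have := add_one_le_exp (0.4 : ℝ); norm_num at this ⊢; linarith
  have h3 : exp 1 < 2.7182818286 := exp_one_lt_d9
  have h4 : exp 1 ^ 6 ≤ 2.7182818286 ^ 6 := pow_le_pow_left₀ (exp_pos _).le h3.le 6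
  have h5 : (2.7182818286 : ℝ) ^ 6 ≤ 404 := by norm_num
  have h6 := exp_pos (5.6 : ℝ)
  nlinarith

/-- general: `(c e^E)^2 ≤ y0 exp (2 W)`. -/
lemma sq_bound {c x y0 W : ℝ} (hy : 0 < y0) (h0 : 0 < x) (h1 : x < 1)
    (hcx : c ^ 2 * (1 + x ^ 2) = 2 * (1 - x ^ 2))
    (hW : (1 - x ^ 2) / (y0 * (1 + x ^ 2)) - 1 / 2 + (5 * π / 4) * x + x * (1 - x) / (1 + x) ≤ W) :
    (c * exp (x * (3 * π / 2 - arctan x))) ^ 2 ≤ y0 * exp (2 * W) := by
  have hx2 : 0 < 1 + x ^ 2 := by positivity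
  have hat := arctan_ge h0 h1
  have hE : x * (3 * π / 2 - arctan x) ≤ (5 * π / 4) * x + x * (1 - x) / (1 + x) := by
    have : x * (3 * π / 2 - arctan x) ≤ x * (3 * π / 2 - (π / 4 - (1 - x) / (1 + x))) := by
      apply mul_le_mul_of_nonneg_left _ h0.le; linarith
    refine this.trans (le_of_eq ?_)
    ring
  have hc2 : c ^ 2 = 2 * ((1 - x ^ 2) / (1 + x ^ 2)) := by
    field_simp
    linarith
  have h3 : c ^ 2 / y0 ≤ exp (c ^ 2 / y0 - 1) := by
    have := add_one_le_exp (c ^ 2 / y0 - 1); linarith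
  have h4 : c ^ 2 ≤ y0 * exp (c ^ 2 / y0 - 1) := by
    have := mul_le_mul_of_nonneg_left h3 hy.le
    rwa [mul_div_cancel₀ _ hy.ne'] at this
  have h5 : (1 - x ^ 2) / (y0 * (1 + x ^ 2)) = (c ^ 2 / y0) / 2 := by
    rw [hc2]; field_simp
  rw [h5] at hW
  rw [mul_pow, ← exp_nat_mul]
  calc c ^ 2 * exp ((2 : ℕ) * (x * (3 * π / 2 - arctan x)))
      ≤ (y0 * exp (c ^ 2 / y0 - 1)) * exp ((2 : ℕ) * (x * (3 * π / 2 - arctan x))) :=
        mul_le_mul_of_nonneg_right h4 (exp_pos _).le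
    _ = y0 * exp ((c ^ 2 / y0 - 1) + (2 : ℕ) * (x * (3 * π / 2 - arctan x))) := by
        rw [mul_assoc, ← exp_add]
    _ ≤ y0 * exp (2 * W) := by
        apply mul_le_mul_of_nonneg_left _ hy.le
        apply exp_le_exp.2
        push_cast
        linarith

end Pool.Agent.Beam
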