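import Pool.Agent.Beam.Shape

set_option autoImplicit false

namespace Pool.Agent.Beam

open Real Filter Topology Set

lemma third {al T : ℝ} {z z1 z2 z3 : ℝ → ℝ}
    (h0 : ∀ t, HasDerivAt z (z1 t) t) (h1 : ∀ t, HasDerivAt z1 (z2 t) t)
    (h2 : ∀ t, HasDerivAt z2 (z3 t) t)
    (h : ∀ t, T ≤ t → z2 t = -(2 * al * z1 t) - z t) :
    ∀ t, T ≤ t → z3 t = -(2 * al * z2 t) - z1 t := by
  intro t ht
  have e1 : HasDerivWithinAt z2 (z3 t) (Ici t) t := (h2 t).hasDerivWithinAt
  have e2 : HasDerivWithinAt (fun s => -(2 * al * z1 s) - z s) (-(2 * al * z2 t) - z1 t) (Ici t) t :=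
    ((((h1 t).const_mul (2 * al)).fun_neg).fun_sub (h0 t)).hasDerivWithinAt
  have e3 : HasDerivWithinAt z2 (-(2 * al * z2 t) - z1 t) (Ici t) t :=
    e2.congr (fun s hs => h s (ht.trans hs)) (h t ht)
  exact (uniqueDiffWithinAt_Ici t).eq_deriv _ e1 e3

theorem extract {c xi a b al be : ℝ} (hp : Par c xi a b al be) {z : ℝ → ℝ} (hw : IsWave c xi z) :
    ∃ T v C D, Data c xi a b al be z T v C D := by
  obtain ⟨T, hT, zT, huniq⟩ := two_points hw.even hw.two
  obtain ⟨h0, h1, h2, h3⟩ := derivs hw.smooth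
  set z1 := iteratedDeriv 1 z with hz1
  set z2 := iteratedDeriv 2 z with hz2
  set z3 := iteratedDeriv 3 z with hz3
  have hcont : Continuous z := hw.smooth.continuous
  have hlim1 : Tendsto z1 atTop (𝓝 0) := by
    rw [hz1, iteratedDeriv_one]; exact hw.lim_deriv_top
  -- parity
  have odd1 : ∀ t, z1 (-t) = -z1 t := by
    intro t
    have e1 : HasDerivAt (fun s => z (-s)) (z1 (-t) * (-1)) t :=
      (h0 (-t)).comp t (hasDerivAt_neg t)
    have e2 : HasDerivAt z (z1 (-t) * (-1)) t := by
      have : (fun s => z (-s)) = z := funext hw.even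
      rwa [this] at e1
    have := e2.unique (h0 t)
    linarith
  have even2 : ∀ t, z2 (-t) = z2 t := by
    intro t
    have e1 : HasDerivAt (fun s => z1 (-s)) (z2 (-t) * (-1)) t :=
      (h1 (-t)).comp t (hasDerivAt_neg t)
    have e2 : HasDerivAt (fun s => -z1 s) (z2 (-t) * (-1)) t := by
      have : (fun s => z1 (-s)) = fun s => -z1 s := funext odd1
      rwa [this] at e1
    have := e2.unique ((h1 t).fun_neg)
    linarith
  have odd3 : ∀ t, z3 (-t) = -z3 t := by
    intro t
    have e1 : HasDerivAt (fun s => z2 (-s)) (z3 (-t) * (-1)) t :=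
      (h2 (-t)).comp t (hasDerivAt_neg t)
    have e2 : HasDerivAt z2 (z3 (-t) * (-1)) t := by
      have : (fun s => z2 (-s)) = z2 := funext even2
      rwa [this] at e1
    have := e2.unique (h2 t)
    linarith
  have z10 : z1 0 = 0 := by have := odd1 0; rw [neg_zero] at this; linarith
  have z30 : z3 0 = 0 := by have := odd3 0; rw [neg_zero] at this; linarith
  -- positivity outside
  have hpos : ∀ t, T < t → -1 < z t := by
    intro t ht
    by_contra hle
    push Not at hle
    have hev : ∀ᶠ s in atTop, -1 < z s := hw.lim_top.eventually (lt_mem_nhds (by norm_num))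
    obtain ⟨s, hs1, hs2⟩ := (hev.and (eventually_ge_atTop t)).exists
    have := intermediate_value_Icc hs2 hcont.continuousOn
    obtain ⟨r, hr, hr2⟩ := this ⟨hle, hs1.le⟩
    have := huniq r (by linarith [hr.1]) hr2
    linarith [hr.1]
  -- the linear equation where z ≥ -1
  have hlin : ∀ R, (∀ t, R ≤ t → -1 ≤ z t) → ∀ t, R ≤ t → z2 t = -(2 * al * z1 t) - z t := by
    intro R hR
    refine decay hp.hal hp.hbe hp.hone hp.hal2 (fun t _ => h0 t) (fun t _ => h1 t)
      (fun t _ => h2 t) ?_ hlim1
    intro t ht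
    refine (h3 t).congr_deriv ?_
    have e := hw.ode t
    have := hR t ht
    rw [max_eq_left (by linarith), max_eq_right (by linarith)] at e
    linarith
  -- inside negative
  have hneg : ∀ t, 0 ≤ t → t < T → z t < -1 := by
    have h00 : z 0 ≠ -1 := by
      intro h; have := huniq 0 le_rfl h; linarith
    rcases lt_or_gt_of_ne h00 with h | h
    · intro t ht htT
      by_contra hge
      push Not at hge
      obtain ⟨r, hr, hr2⟩ := intermediate_value_Icc ht hcont.continuousOn ⟨h.le, hge⟩
      have := huniq r hr.1 hr2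
      linarith [hr.2]
    · exfalso
      have hall : ∀ t, 0 ≤ t → -1 ≤ z t := by
        intro t ht
        rcases lt_trichotomy t T with h' | h' | h'
        · by_contra hlt
          push Not at hlt
          obtain ⟨r, hr, hr2⟩ := intermediate_value_Icc' ht hcont.continuousOn ⟨hlt.le, h.le⟩
          have := huniq r hr.1 hr2
          linarith [hr.2]
        · rw [h', zT]
        · exact (hpos t h').le
      have e2 := hlin 0 hall
      have e3 := third h0 h1 h2 e2 0 le_rfl
      rw [z30, z10] at e3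
      have hal := hp.hal
      have z20 : z2 0 = 0 := by
        have : 2 * al * z2 0 = 0 := by linarith
        rcases mul_eq_zero.1 this with h | h
        · exfalso; linarith
        · exact h
      have e20 := e2 0 le_rfl
      rw [z20, z10] at e20
      have z00 : z 0 = 0 := by linarith
      have := damp (ka := al) (be := be) (T := 0) hp.hbe hp.hone (f := z) (f1 := z1)
        (fun t _ => h0 t) (fun t ht => (h1 t).congr_deriv (e2 t ht)) T hT.le
      rw [z00, z10, zT] at this
      norm_num at this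
  -- values at T
  have hge : ∀ t, T ≤ t → -1 ≤ z t := by
    intro t ht
    rcases ht.lt_or_eq with h | h
    · exact (hpos t h).le
    · rw [← h, zT]
  have e2 := hlin T hge
  have e3 := third h0 h1 h2 e2
  have z2T : z2 T = 1 - 2 * al * z1 T := by rw [e2 T le_rfl, zT]; ring
  have z3T : z3 T = (1 - c ^ 2) * z1 T - 2 * al := by
    rw [e3 T le_rfl, z2T]
    linear_combination (z1 T) * hp.hal2
  have hv : 0 ≤ z1 T := by
    have hs := (h0 T).tendsto_slope
    have hs2 : Tendsto (slope z T) (𝓝[>] T) (𝓝 (z1 T)) :=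
      hs.mono_left (nhdsWithin_mono _ (fun x hx => ne_of_gt hx))
    apply ge_of_tendsto hs2
    filter_upwards [self_mem_nhdsWithin] with x hx
    have hx' : T < x := hx
    rw [slope_def_field]
    apply div_nonneg
    · rw [zT]; linarith [hpos x hx']
    · linarith
  have ha := hp.ha
  have hb : 0 < b := hp.ha.trans hp.hab
  have hba : 0 < b ^ 2 - a ^ 2 := by nlinarith [hp.hab]
  -- inner equation
  have hinner : ∀ t, 0 ≤ t → t ≤ T → iteratedDeriv 4 z t = 1 - c ^ 2 * z2 t - xi * (z t + 1) := by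
    intro t ht htT
    have hle : z t ≤ -1 := by
      rcases htT.lt_or_eq with h | h
      · exact (hneg t ht h).le
      · rw [h, zT]
    have e := hw.ode t
    rw [max_eq_right (by linarith), max_eq_left (by linarith)] at e
    linarith
  have hP := osc (om := a) (T := T) hp.ha (f := fun t => z2 t + b ^ 2 * (z t + 1) - 1 / a ^ 2)
    (f1 := fun t => z3 t + b ^ 2 * z1 t)
    (fun t ht htT => (((h2 t).fun_add (((h0 t).add_const 1).const_mul (b ^ 2)))).sub_const _)
    (fun t ht htT => by
      refine ((h3 t).fun_add ((h1 t).const_mul (b ^ 2))).congr_deriv ?_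
      rw [hinner t ht htT]
      have ha2 : a ^ 2 * (1 / a ^ 2) = 1 := by field_simp
      linear_combination (z t + 1) * hp.habx + (z2 t) * hp.habc - ha2)
    (by rw [z30, z10]; ring)
  have hQ := osc (om := b) (T := T) hb (f := fun t => z2 t + a ^ 2 * (z t + 1) - 1 / b ^ 2)
    (f1 := fun t => z3 t + a ^ 2 * z1 t)
    (fun t ht htT => (((h2 t).fun_add (((h0 t).add_const 1).const_mul (a ^ 2)))).sub_const _)
    (fun t ht htT => by
      refine ((h3 t).fun_add ((h1 t).const_mul (a ^ 2))).congr_deriv ?_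
      rw [hinner t ht htT]
      have hb2 : b ^ 2 * (1 / b ^ 2) = 1 := by field_simp
      linear_combination (z t + 1) * hp.habx + (z2 t) * hp.habc - hb2)
    (by rw [z30, z10]; ring)
  set P := z2 0 + b ^ 2 * (z 0 + 1) - 1 / a ^ 2 with hPdef
  set Q := z2 0 + a ^ 2 * (z 0 + 1) - 1 / b ^ 2 with hQdef
  have hxi : xi = a ^ 2 * b ^ 2 := hp.habx.symm
  refine ⟨T, z1 T, P / (b ^ 2 - a ^ 2), -(Q / (b ^ 2 - a ^ 2)), hT, hv, hneg, zT, ?_, hpos, ?_,
    ?_, ?_, ?_, ?_⟩
  · intro t ht
    have := damp (ka := al) (be := be) (T := T) hp.hbe hp.hone (f := z) (f1 := z1)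
        (fun t _ => h0 t) (fun t ht => (h1 t).congr_deriv (e2 t ht)) t ht
    rw [this, zT]
    ring
  · intro t ht htT
    have eP := (hP t ht htT).1
    have eQ := (hQ t ht htT).1
    have : (b ^ 2 - a ^ 2) * (z t + 1) = P * cos (a * t) - Q * cos (b * t)
        + (1 / a ^ 2 - 1 / b ^ 2) := by rw [← eP, ← eQ]; ring
    have hx : 1 / xi = (1 / a ^ 2 - 1 / b ^ 2) / (b ^ 2 - a ^ 2) := by
      rw [hxi]; field_simp
    have h5 : z t + 1 = (P * cos (a * t) - Q * cos (b * t) + (1 / a ^ 2 - 1 / b ^ 2))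
        / (b ^ 2 - a ^ 2) := by
      rw [eq_div_iff hba.ne']; linarith
    rw [h5, hx]
    ring
  · have eP := (hP T hT.le le_rfl).1
    have : (b ^ 2 - a ^ 2) * (P / (b ^ 2 - a ^ 2) * cos (a * T)) = P * cos (a * T) := by
      field_simp
    rw [this, ← eP, zT, z2T]; ring
  · have eP := (hP T hT.le le_rfl).2
    have : (b ^ 2 - a ^ 2) * (a * (P / (b ^ 2 - a ^ 2) * sin (a * T))) = a * P * sin (a * T) := by
      field_simp
    rw [this]
    linear_combination eP - z3T - (z1 T) * hp.habc
  · have eQ := (hQ T hT.le le_rfl).1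
    have : (b ^ 2 - a ^ 2) * (-(Q / (b ^ 2 - a ^ 2)) * cos (b * T)) = -(Q * cos (b * T)) := by
      field_simp
    rw [this, ← eQ, zT, z2T]; ring
  · have eQ := (hQ T hT.le le_rfl).2
    have : (b ^ 2 - a ^ 2) * (b * (-(Q / (b ^ 2 - a ^ 2)) * sin (b * T))) = -(b * Q * sin (b * T)) := by
      field_simp
    rw [this]
    linear_combination -eQ + z3T + (z1 T) * hp.habc

end Pool.Agent.Beam
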