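import Pool.Agent.Beam.Bounds
import Pool.Agent.Beam.Extract

set_option autoImplicit false

namespace Pool.Agent.Beam

open Real Set

lemma T_lt {c xi a b al be : ℝ} (hp : Par c xi a b al be) {z : ℝ → ℝ} {T v C D : ℝ}
    (h : Data c xi a b al be z T v C D) : T ≤ v - 2 * al := by
  have ha := hp.ha
  have hal := hp.hal
  have ha1 := par_a hp
  have e := aT_eq hp h
  have hpos : 0 < a * T := mul_pos ha h.hT
  have h1 : 2 * al * a ≤ 2 * al * a / (1 - a ^ 2) := by
    rw [le_div_iff₀ (by linarith)]
    have : 0 ≤ 2 * al * a * a ^ 2 := by positivity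
    nlinarith
  have h2 : arctan (2 * al * a) ≤ arctan (2 * al * a / (1 - a ^ 2)) := arctan_mono h1
  have h3 : 2 * al * a ≤ a * v := by
    by_contra hn
    push Not at hn
    have := arctan_mono hn.le
    linarith
  have h4 := arctan_sub_le h3
  have h5 : a * T ≤ a * (v - 2 * al) := by nlinarith
  exact le_of_mul_le_mul_left h5 ha

theorem k_range {c xi a b al be : ℝ} (hp : Par c xi a b al be) {z : ℝ → ℝ} {T v C D : ℝ}
    (h : Data c xi a b al be z T v C D) (k : ℤ)
    (hk : (k : ℝ) * π =
      b * T - arctan (b * v) + (π / 2 - arctan ((1 - b ^ 2) / (2 * al * b)))) :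
    1 ≤ k ∧ k ≤ 5 := by
  have ha := hp.ha
  have hab := hp.hab
  have hb : 0 < b := ha.trans hab
  have hal := hp.hal
  have hbe := hp.hbe
  have hc := hp.hc
  have hpi := pi_pos
  have ha1 := par_a hp
  have hT := h.hT
  have hTv := T_lt hp h
  have haT := aT_eq hp h
  have hv : 0 < v := by linarith
  have hbc : b < c := by
    have h1 : b ^ 2 < c ^ 2 := by have := hp.habc; nlinarith
    exact lt_of_pow_lt_pow_left₀ 2 hc.le h1
  have hal2 := hp.hal2
  have hc2 : c ^ 2 < 2 := by nlinarith
  set r := (1 - b ^ 2) / (2 * al * b) with hr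
  have hr1 : 2 * al * b * r = 1 - b ^ 2 := by rw [hr]; field_simp
  obtain ⟨x0, x1, hcx⟩ := x_facts hp
  have hvb := v_bound hp h
  set x := al / be with hx
  set E := x * (3 * π / 2 - arctan x) with hE
  have hS : 0 < v - 2 * al := by linarith
  have hatb : 0 < arctan (b * v) := arctan_pos.2 (by positivity)
  have hatr := neg_pi_div_two_lt_arctan r
  have hatr2 := arctan_lt_pi_div_two r
  constructor
  · -- k ≥ 1
    have hk0 : 0 < (k : ℝ) * π := by
      set q := 2 * al * a / (1 - a ^ 2) with hq
      set v0 := 2 * al / (1 - a ^ 2) with hv0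
      have hv0pos : 0 < v0 := by rw [hv0]; apply div_pos (by positivity); linarith
      have hav0 : a * v0 = q := by rw [hv0, hq]; ring
      have hlt : v0 < v := by
        have hpos : 0 < a * T := mul_pos ha hT
        have h1 : arctan q < arctan (a * v) := by linarith
        have h2 : q < a * v := by
          by_contra hn; push Not at hn
          have := arctan_mono hn; linarith
        rw [← hav0] at h2
        exact lt_of_mul_lt_mul_left h2 ha.le
      have hm := F_mono ha hab (mem_Ici.2 hv0pos.le) (mem_Ici.2 hv.le) hlt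
      simp only at hm
      rw [hav0] at hm
      have hbT : b * T = b / a * (arctan (a * v) - arctan q) := by
        rw [← haT]; field_simp
      rw [hk, hbT]
      have hd : arctan (b * v0) < π / 2 - arctan r := by
        have h1 : π / 2 - arctan (b * v0) = arctan (b * v0)⁻¹ :=
          (arctan_inv_of_pos (by positivity)).symm
        have h2 : arctan r < arctan (b * v0)⁻¹ := by
          apply arctan_strictMono
          have h3 : r * (b * v0) < 1 := by
            have h4 : 2 * al * (r * (b * v0)) = (1 - b ^ 2) * v0 := by rw [← hr1]; ring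
            have h5 : (1 - a ^ 2) * v0 = 2 * al := by
              rw [hv0]; field_simp [(by linarith : (1 - a ^ 2) ≠ 0)]
            have h6 : (1 - b ^ 2) * v0 < 2 * al := by
              rw [← h5]
              apply mul_lt_mul_of_pos_right _ hv0pos
              nlinarith
            nlinarith
          rw [← one_div, lt_div_iff₀ (by positivity)]
          exact h3
        linarith
      have : b / a * (arctan (a * v) - arctan q) = b / a * arctan (a * v) - b / a * arctan q := by
        ring
      rw [this]
      linarith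
    have : (0 : ℝ) < k := by
      by_contra hn; push Not at hn
      have := mul_nonpos_of_nonpos_of_nonneg hn hpi.le
      linarith
    have : (0 : ℤ) < k := by exact_mod_cast this
    omega
  · -- k ≤ 5
    by_contra hk6
    push Not at hk6
    have hk6' : (6 : ℝ) ≤ k := by exact_mod_cast hk6
    have hk6'' : 6 * π ≤ (k : ℝ) * π := mul_le_mul_of_nonneg_right hk6' hpi.le
    have hbT : b * T < c * exp E := by
      calc b * T ≤ b * (v - 2 * al) := mul_le_mul_of_nonneg_left hTv hb.le
        _ ≤ c * (v - 2 * al) := mul_le_mul_of_nonneg_right hbc.le hS.le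
        _ < c * exp E := mul_lt_mul_of_pos_left hvb hc
    have hpi1 : 3.1415 < π := pi_gt_d4
    rcases le_or_gt (π / 2 - arctan r) (arctan (b * v)) with hA | hB
    · have h1 : 6 * π < c * exp E := by linarith
      have h2 := sq_bound (c := c) (x := x) (y0 := 17 / 50) (W := 347 / 100) (by norm_num) x0 x1 hcx
        (poly1 x0 x1)
      have h3 : (6 * π) ^ 2 < (c * exp E) ^ 2 := pow_lt_pow_left₀ h1 (by positivity) (by norm_num)
      have h4 : (2 : ℝ) * (347 / 100) = 6.94 := by norm_num
      rw [h4] at h2
      have h5 := exp_bound1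
      have h6 : (18.849 : ℝ) ^ 2 ≤ (6 * π) ^ 2 := by
        apply pow_le_pow_left₀ (by norm_num); linarith
      norm_num at h6 h5
      nlinarith
    · -- case B
      have h1 : 5 * π < b * T := by linarith
      have h2 : (1 - b ^ 2) * v < 2 * al := by
        have g1 : arctan r < arctan (b * v)⁻¹ := by
          rw [arctan_inv_of_pos (by positivity)]; linarith
        have g2 : r < (b * v)⁻¹ := by
          by_contra hn; push Not at hn
          have := arctan_mono hn; linarith
        rw [← one_div, lt_div_iff₀ (by positivity)] at g2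
        have g3 : 2 * al * (r * (b * v)) = (1 - b ^ 2) * v := by rw [← hr1]; ring
        nlinarith
      have hb2 : b < 1.415 := by
        have : b ^ 2 < 1.415 ^ 2 := by norm_num; nlinarith
        exact lt_of_pow_lt_pow_left₀ 2 (by norm_num) this
      have hv11 : 11.1 < v := by
        have g1 : 5 * π < b * v := by
          calc 5 * π < b * T := h1
            _ ≤ b * (v - 2 * al) := mul_le_mul_of_nonneg_left hTv hb.le
            _ ≤ b * v := by nlinarith
        nlinarith
      have hal3 : al < 0.7075 := by
        have : al ^ 2 < 0.7075 ^ 2 := by norm_num; nlinarith [sq_nonneg c, sq_pos_of_pos hc]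
        exact lt_of_pow_lt_pow_left₀ 2 (by norm_num) this
      have hb87 : 0.87 < b ^ 2 := by
        by_contra hn; push Not at hn
        nlinarith
      have hx63 : x < 63 / 100 := by
        have g1 : x ^ 2 < (63 / 100) ^ 2 := by
          have : 0.87 < c ^ 2 := by nlinarith
          nlinarith
        exact lt_of_pow_lt_pow_left₀ 2 (by norm_num) g1
      have h3 : 5 * π < c * exp E := by linarith
      have h4 := sq_bound (c := c) (x := x) (y0 := 4 / 5) (W := 28 / 10) (by norm_num) x0 x1 hcx
        (poly2 x0 hx63)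
      have h5 : (5 * π) ^ 2 < (c * exp E) ^ 2 := pow_lt_pow_left₀ h3 (by positivity) (by norm_num)
      have h6 : (2 : ℝ) * (28 / 10) = 5.6 := by norm_num
      rw [h6] at h4
      have h7 := exp_bound2
      have h8 : (15.7 : ℝ) ^ 2 ≤ (5 * π) ^ 2 := by
        apply pow_le_pow_left₀ (by norm_num); linarith
      norm_num at h8 h7
      nlinarith

theorem unique {c xi a b al be : ℝ} (hp : Par c xi a b al be) {z z' : ℝ → ℝ}
    (he : ∀ t, z (-t) = z t) (he' : ∀ t, z' (-t) = z' t) {T v C D T' v' C' D' : ℝ}
    (h : Data c xi a b al be z T v C D) (h' : Data c xi a b al be z' T' v' C' D') (k : ℤ)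
    (hk : (k : ℝ) * π =
      b * T - arctan (b * v) + (π / 2 - arctan ((1 - b ^ 2) / (2 * al * b))))
    (hk' : (k : ℝ) * π =
      b * T' - arctan (b * v') + (π / 2 - arctan ((1 - b ^ 2) / (2 * al * b)))) : z = z' := by
  have ha := hp.ha
  have hab := hp.hab
  have hb : 0 < b := ha.trans hab
  have hK : b ^ 2 - a ^ 2 ≠ 0 := by
    have : 0 < b ^ 2 - a ^ 2 := by nlinarith
    exact this.ne'
  have e1 := aT_eq hp h
  have e1' := aT_eq hp h'
  set q := 2 * al * a / (1 - a ^ 2)
  have f1 : b * T = b / a * (arctan (a * v) - arctan q) := by rw [← e1]; field_simp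
  have f1' : b * T' = b / a * (arctan (a * v') - arctan q) := by rw [← e1']; field_simp
  have hvv : v = v' := by
    apply (F_mono ha hab).injOn (mem_Ici.2 h.hv) (mem_Ici.2 h'.hv)
    simp only
    rw [f1] at hk
    rw [f1'] at hk'
    have g : b / a * (arctan (a * v) - arctan q) = b / a * arctan (a * v) - b / a * arctan q := by
      ring
    have g' : b / a * (arctan (a * v') - arctan q) = b / a * arctan (a * v') - b / a * arctan q := by
      ring
    rw [g] at hk
    rw [g'] at hk'
    linarith
  subst hvv
  have hTT : T = T' := by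
    have : a * T = a * T' := by rw [e1, e1']
    exact mul_left_cancel₀ ha.ne' this
  subst hTT
  have hlt := aT_lt hp h
  have hpos : 0 < a * T := mul_pos ha h.hT
  have hcos : cos (a * T) ≠ 0 := by
    apply ne_of_gt
    apply cos_pos_of_mem_Ioo
    constructor <;> linarith [pi_pos]
  have hCC : C = C' := by
    have := h.aC.trans h'.aC.symm
    have := mul_left_cancel₀ hK this
    exact mul_right_cancel₀ hcos this
  have hDD : D = D' := by
    have g1 := mul_left_cancel₀ hK (h.bC.trans h'.bC.symm)
    have g2 := mul_left_cancel₀ hb.ne' (mul_left_cancel₀ hK (h.bS.trans h'.bS.symm))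
    have cs := sin_sq_add_cos_sq (b * T)
    linear_combination (cos (b * T)) * g1 + (sin (b * T)) * g2 - (D - D') * cs
  subst hCC
  subst hDD
  have hnn : ∀ t, 0 ≤ t → z t = z' t := by
    intro t ht
    rcases le_total t T with h1 | h1
    · have := h.inn t ht h1
      have := h'.inn t ht h1
      linarith
    · rw [h.out t h1, h'.out t h1]
  funext t
  rcases le_total 0 t with h1 | h1
  · exact hnn t h1
  · rw [← he t, ← he' t]
    exact hnn (-t) (by linarith)

theorem at_most_five {c xi : ℝ} (hc : 0 < c) (hc2 : c < sqrt 2) (hxi : 0 < xi)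
    (hxi2 : xi < c ^ 4 / 4) : {z : ℝ → ℝ | IsWave c xi z}.encard ≤ 5 := by
  classical
  obtain ⟨a, b, al, be, hp⟩ := par_exists hc hc2 hxi hxi2
  have key : ∀ z : ℝ → ℝ, IsWave c xi z → ∃ k : ℤ, ∃ T v C D, Data c xi a b al be z T v C D ∧
      (k : ℝ) * π = b * T - arctan (b * v) + (π / 2 - arctan ((1 - b ^ 2) / (2 * al * b))) := by
    intro z hz
    obtain ⟨T, v, C, D, hd⟩ := extract hp hz
    obtain ⟨k, hk⟩ := bT_eq hp hd
    exact ⟨k, T, v, C, D, hd, hk⟩
  let K : (ℝ → ℝ) → ℤ := fun z => if h : IsWave c xi z then Classical.choose (key z h) else 0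
  have hK : ∀ z, IsWave c xi z → ∃ T v C D, Data c xi a b al be z T v C D ∧
      ((K z : ℤ) : ℝ) * π
        = b * T - arctan (b * v) + (π / 2 - arctan ((1 - b ^ 2) / (2 * al * b))) := by
    intro z hz
    have := Classical.choose_spec (key z hz)
    simp only [K, hz, dif_pos]
    exact this
  have h1 : {z : ℝ → ℝ | IsWave c xi z}.encard ≤ (Icc (1 : ℤ) 5).encard := by
    apply encard_le_encard_of_injOn (f := K)
    · intro z hz
      obtain ⟨T, v, C, D, hd, hk⟩ := hK z hz
      exact k_range hp hd _ hk
    · intro z hz z' hz' hzz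
      obtain ⟨T, v, C, D, hd, hk⟩ := hK z hz
      obtain ⟨T', v', C', D', hd', hk'⟩ := hK z' hz'
      rw [← hzz] at hk'
      exact unique hp hz.even hz'.even hd hd' _ hk hk'
  refine h1.trans ?_
  have : (Icc (1 : ℤ) 5) = ((Finset.Icc (1 : ℤ) 5 : Finset ℤ) : Set ℤ) := by simp
  rw [this, encard_coe_eq_coe_finsetCard]
  simp

end Pool.Agent.Beam
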