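import Mathlib

set_option autoImplicit false

namespace Pool.Agent.Beam

open Filter Topology

/-- `z` is an even one-troughed wave of the problem
`z'''' + c² z'' + (z+1)⁺ - ξ (z+1)⁻ - 1 = 0` on `ℝ`, `z, z' → 0` at `±∞`: a `C⁴` solution which is
even and takes the value `-1` at exactly two points. -/
structure IsWave (c xi : ℝ) (z : ℝ → ℝ) : Prop where
  smooth : ContDiff ℝ 4 z
  ode : ∀ t, iteratedDeriv 4 z t + c ^ 2 * iteratedDeriv 2 z t
    + max (z t + 1) 0 - xi * max (-(z t + 1)) 0 - 1 = 0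
  lim_top : Tendsto z atTop (𝓝 0)
  lim_bot : Tendsto z atBot (𝓝 0)
  lim_deriv_top : Tendsto (deriv z) atTop (𝓝 0)
  lim_deriv_bot : Tendsto (deriv z) atBot (𝓝 0)
  even : ∀ t, z (-t) = z t
  two : {t | z t = -1}.ncard = 2

end Pool.Agent.Beam
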