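import Mathlib

set_option autoImplicit false

namespace Pool.Agent.Beam

open Real Filter Topology Set

/-- A function with zero derivative on `[T, ∞)` is constant there. -/
lemma const_Ici {T : ℝ} {f : ℝ → ℝ} (h : ∀ t, T ≤ t → HasDerivAt f 0 t) :
    ∀ t, T ≤ t → f t = f T := by
  intro t ht
  have hc : ContinuousOn f (Icc T t) := fun x hx => (h x hx.1).continuousAt.continuousWithinAt
  exact constant_of_has_deriv_right_zero hc
    (fun x hx => (h x hx.1).hasDerivWithinAt) t ⟨ht, le_refl t⟩

lemma const_Icc {T : ℝ} {f : ℝ → ℝ} (h : ∀ t, 0 ≤ t → t ≤ T → HasDerivAt f 0 t) :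
    ∀ t, 0 ≤ t → t ≤ T → f t = f 0 := by
  intro t ht htT
  have hc : ContinuousOn f (Icc 0 t) :=
    fun x hx => (h x hx.1 (hx.2.trans htT)).continuousAt.continuousWithinAt
  exact constant_of_has_deriv_right_zero hc
    (fun x hx => (h x hx.1 (hx.2.le.trans htT)).hasDerivWithinAt) t ⟨ht, le_refl t⟩

lemma osc {om T : ℝ} (hom : 0 < om) {f f1 : ℝ → ℝ}
    (h0 : ∀ t, 0 ≤ t → t ≤ T → HasDerivAt f (f1 t) t)
    (h1 : ∀ t, 0 ≤ t → t ≤ T → HasDerivAt f1 (-(om ^ 2) * f t) t) (hz : f1 0 = 0) :
    ∀ t, 0 ≤ t → t ≤ T → f t = f 0 * cos (om * t) ∧ f1 t = -(om * f 0 * sin (om * t)) := by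
  have hc : ∀ t : ℝ, HasDerivAt (fun t => cos (om * t)) (-(om * sin (om * t))) t := by
    intro t
    have := (hasDerivAt_cos (om * t)).comp t ((hasDerivAt_id t).const_mul om)
    exact this.congr_deriv (by ring)
  have hs : ∀ t : ℝ, HasDerivAt (fun t => sin (om * t)) (om * cos (om * t)) t := by
    intro t
    have := (hasDerivAt_sin (om * t)).comp t ((hasDerivAt_id t).const_mul om)
    exact this.congr_deriv (by ring)
  intro t ht htT
  have e1 := const_Icc (T := T) (f := fun t => om * f t * cos (om * t) - f1 t * sin (om * t))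
    (by
      intro x hx hxT
      have := (((h0 x hx hxT).const_mul om).fun_mul (hc x)).fun_sub ((h1 x hx hxT).fun_mul (hs x))
      exact this.congr_deriv (by ring)) t ht htT
  have e2 := const_Icc (T := T) (f := fun t => om * f t * sin (om * t) + f1 t * cos (om * t))
    (by
      intro x hx hxT
      have := (((h0 x hx hxT).const_mul om).fun_mul (hs x)).fun_add ((h1 x hx hxT).fun_mul (hc x))
      exact this.congr_deriv (by ring)) t ht htT
  simp only [mul_zero, cos_zero, sin_zero, mul_one, sub_zero, zero_add, hz] at e1 e2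
  have cs := sin_sq_add_cos_sq (om * t)
  constructor
  · have : om * f t = om * (f 0 * cos (om * t)) := by
      linear_combination (cos (om * t)) * e1 + (sin (om * t)) * e2 - om * f t * cs
    exact mul_left_cancel₀ hom.ne' this
  · linear_combination (cos (om * t)) * e2 - (sin (om * t)) * e1 - f1 t * cs

lemma damp {ka be T : ℝ} (hbe : 0 < be) (hk : ka ^ 2 + be ^ 2 = 1) {f f1 : ℝ → ℝ}
    (h0 : ∀ t, T ≤ t → HasDerivAt f (f1 t) t)
    (h1 : ∀ t, T ≤ t → HasDerivAt f1 (-(2 * ka * f1 t) - f t) t) :
    ∀ t, T ≤ t → f t = exp (-(ka * (t - T))) *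
      (f T * cos (be * (t - T)) + (f1 T + ka * f T) / be * sin (be * (t - T))) := by
  have hc : ∀ t : ℝ, HasDerivAt (fun t => cos (be * (t - T))) (-(be * sin (be * (t - T)))) t := by
    intro t
    have := (hasDerivAt_cos (be * (t - T))).comp t (((hasDerivAt_id t).sub_const T).const_mul be)
    exact this.congr_deriv (by ring)
  have hs : ∀ t : ℝ, HasDerivAt (fun t => sin (be * (t - T))) (be * cos (be * (t - T))) t := by
    intro t
    have := (hasDerivAt_sin (be * (t - T))).comp t (((hasDerivAt_id t).sub_const T).const_mul be)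
    exact this.congr_deriv (by ring)
  have he : ∀ t : ℝ, HasDerivAt (fun t => exp (ka * (t - T))) (ka * exp (ka * (t - T))) t := by
    intro t
    have := (hasDerivAt_exp (ka * (t - T))).comp t (((hasDerivAt_id t).sub_const T).const_mul ka)
    exact this.congr_deriv (by ring)
  intro t ht
  have e1 := const_Ici (T := T)
    (f := fun t => exp (ka * (t - T)) * (be * f t * cos (be * (t - T))
      - (f1 t + ka * f t) * sin (be * (t - T))))
    (by
      intro x hx
      have := (he x).fun_mul ((((h0 x hx).const_mul be).fun_mul (hc x)).fun_sub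
        (((h1 x hx).fun_add ((h0 x hx).const_mul ka)).fun_mul (hs x)))
      refine this.congr_deriv ?_
      have hb : be ^ 2 = 1 - ka ^ 2 := by linarith
      linear_combination (-(exp (ka * (x - T)) * f x * sin (be * (x - T)))) * hb) t ht
  have e2 := const_Ici (T := T)
    (f := fun t => exp (ka * (t - T)) * (be * f t * sin (be * (t - T))
      + (f1 t + ka * f t) * cos (be * (t - T))))
    (by
      intro x hx
      have := (he x).fun_mul ((((h0 x hx).const_mul be).fun_mul (hs x)).fun_add
        (((h1 x hx).fun_add ((h0 x hx).const_mul ka)).fun_mul (hc x)))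
      refine this.congr_deriv ?_
      have hb : be ^ 2 = 1 - ka ^ 2 := by linarith
      linear_combination (exp (ka * (x - T)) * f x * cos (be * (x - T))) * hb) t ht
  simp only [sub_self, mul_zero, cos_zero, sin_zero, mul_one, sub_zero, zero_add, exp_zero,
    one_mul] at e1 e2
  have cs := sin_sq_add_cos_sq (be * (t - T))
  have hexp : exp (-(ka * (t - T))) * exp (ka * (t - T)) = 1 := by
    rw [← exp_add]; simp
  have key : exp (ka * (t - T)) * (be * f t) =
      be * f T * cos (be * (t - T)) + (f1 T + ka * f T) * sin (be * (t - T)) := by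
    linear_combination (cos (be * (t - T))) * e1 + (sin (be * (t - T))) * e2
      - exp (ka * (t - T)) * (be * f t) * cs
  have key2 : be * f t = exp (-(ka * (t - T))) *
      (be * f T * cos (be * (t - T)) + (f1 T + ka * f T) * sin (be * (t - T))) := by
    rw [← key, ← mul_assoc, hexp, one_mul]
  have : be * f t = be * (exp (-(ka * (t - T))) *
      (f T * cos (be * (t - T)) + (f1 T + ka * f T) / be * sin (be * (t - T)))) := by
    rw [key2]; field_simp
  exact mul_left_cancel₀ hbe.ne' this

/-- A growing oscillation that tends to zero vanishes. -/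
lemma grow_zero {al be A B T : ℝ} (hal : 0 < al) (hbe : 0 < be) {g : ℝ → ℝ}
    (hg : ∀ t, T ≤ t → g t = exp (al * (t - T)) *
      (A * cos (be * (t - T)) + B * sin (be * (t - T))))
    (hlim : Tendsto g atTop (𝓝 0)) : A = 0 ∧ B = 0 := by
  have key : ∀ (th X : ℝ), 0 ≤ th → (∀ n : ℕ, A * cos (th + n * (2 * π)) + B * sin (th + n * (2 * π)) = X) →
      X = 0 := by
    intro th X hth hX
    have hseq : Tendsto (fun n : ℕ => T + (th + n * (2 * π)) / be) atTop atTop := by
      apply tendsto_atTop_add_const_left
      apply Tendsto.atTop_div_const hbe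
      apply tendsto_atTop_add_const_left
      exact Tendsto.atTop_mul_const (by positivity) tendsto_natCast_atTop_atTop
    have h1 := hlim.comp hseq
    have h2 : ∀ n : ℕ, |X| ≤ |g (T + (th + n * (2 * π)) / be)| := by
      intro n
      have hpos : 0 ≤ (th + n * (2 * π)) / be := by positivity
      rw [hg _ (by linarith)]
      have e : be * (T + (th + n * (2 * π)) / be - T) = th + n * (2 * π) := by
        field_simp; ring
      rw [e, hX n, abs_mul, abs_of_pos (exp_pos _)]
      have : 1 ≤ exp (al * (T + (th + n * (2 * π)) / be - T)) := by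
        apply one_le_exp
        have : T + (th + n * (2 * π)) / be - T = (th + n * (2 * π)) / be := by ring
        rw [this]; positivity
      nlinarith [abs_nonneg X]
    have h3 : Tendsto (fun n : ℕ => |g (T + (th + n * (2 * π)) / be)|) atTop (𝓝 |0|) :=
      (continuous_abs.tendsto 0).comp h1
    rw [abs_zero] at h3
    have h4 : |X| ≤ 0 := ge_of_tendsto h3 (Eventually.of_forall h2)
    exact abs_eq_zero.1 (le_antisymm h4 (abs_nonneg X))
  constructor
  · apply key 0 A le_rfl
    intro n
    simp only [zero_add]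
    rw [cos_nat_mul_two_pi]
    have : sin ((n : ℝ) * (2 * π)) = 0 := by
      have := sin_add_nat_mul_two_pi 0 n
      simpa using this
    rw [this]; ring
  · apply key (π / 2) B (by positivity)
    intro n
    rw [cos_add_nat_mul_two_pi, sin_add_nat_mul_two_pi]
    simp

lemma decay {c al be T : ℝ} (hal : 0 < al) (hbe : 0 < be) (hk : al ^ 2 + be ^ 2 = 1)
    (hc : 4 * al ^ 2 = 2 - c ^ 2) {z z1 z2 z3 : ℝ → ℝ}
    (h0 : ∀ t, T ≤ t → HasDerivAt z (z1 t) t)
    (h1 : ∀ t, T ≤ t → HasDerivAt z1 (z2 t) t)
    (h2 : ∀ t, T ≤ t → HasDerivAt z2 (z3 t) t)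
    (h3 : ∀ t, T ≤ t → HasDerivAt z3 (-(c ^ 2 * z2 t) - z t) t)
    (hlim : Tendsto z1 atTop (𝓝 0)) :
    ∀ t, T ≤ t → z2 t = -(2 * al * z1 t) - z t := by
  have hg := damp (ka := -al) (be := be) (T := T) hbe (by linarith [neg_sq al])
    (f := fun t => z2 t + 2 * al * z1 t + z t) (f1 := fun t => z3 t + 2 * al * z2 t + z1 t)
    (fun t ht => ((h2 t ht).add ((h1 t ht).const_mul (2 * al))).add (h0 t ht))
    (fun t ht => by
      have := ((h3 t ht).add ((h2 t ht).const_mul (2 * al))).add (h1 t ht)
      exact this.congr_deriv (by linear_combination (-(z2 t)) * hc))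
  have hh := damp (ka := al) (be := be) (T := T) hbe hk
    (f := fun t => z2 t - 2 * al * z1 t + z t) (f1 := fun t => z3 t - 2 * al * z2 t + z1 t)
    (fun t ht => ((h2 t ht).sub ((h1 t ht).const_mul (2 * al))).add (h0 t ht))
    (fun t ht => by
      have := ((h3 t ht).sub ((h2 t ht).const_mul (2 * al))).add (h1 t ht)
      exact this.congr_deriv (by linear_combination (-(z2 t)) * hc))
  -- h tends to zero
  set A' := z2 T - 2 * al * z1 T + z T with hA'
  set B' := (z3 T - 2 * al * z2 T + z1 T + al * (z2 T - 2 * al * z1 T + z T)) / be with hB'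
  have hexp : Tendsto (fun t : ℝ => exp (-(al * (t - T)))) atTop (𝓝 0) := by
    apply tendsto_exp_atBot.comp
    apply tendsto_neg_atTop_atBot.comp
    apply Tendsto.const_mul_atTop hal
    exact tendsto_atTop_add_const_right _ _ tendsto_id
  have hlimh : Tendsto (fun t => z2 t - 2 * al * z1 t + z t) atTop (𝓝 0) := by
    have hb : Tendsto (fun t : ℝ => exp (-(al * (t - T))) * (|A'| + |B'|)) atTop (𝓝 0) := by
      simpa using hexp.mul_const (|A'| + |B'|)
    apply squeeze_zero_norm' _ hb
    filter_upwards [eventually_ge_atTop T] with t ht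
    have e := hh t ht
    rw [e, norm_mul, Real.norm_eq_abs, abs_of_pos (exp_pos _)]
    apply mul_le_mul_of_nonneg_left _ (exp_pos _).le
    rw [Real.norm_eq_abs]
    refine (abs_add_le _ _).trans ?_
    apply add_le_add
    · rw [abs_mul]
      exact mul_le_of_le_one_right (abs_nonneg _) (abs_cos_le_one _)
    · rw [abs_mul]
      exact mul_le_of_le_one_right (abs_nonneg _) (abs_sin_le_one _)
  have hlimg : Tendsto (fun t => z2 t + 2 * al * z1 t + z t) atTop (𝓝 0) := by
    have := hlimh.add (hlim.const_mul (4 * al))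
    rw [mul_zero, add_zero] at this
    refine this.congr (fun t => by ring)
  have hz := grow_zero (g := fun t => z2 t + 2 * al * z1 t + z t) hal hbe
    (fun t ht => by
      have e := hg t ht
      rw [e]
      congr 2
      ring) hlimg
  intro t ht
  have e := hg t ht
  rw [hz.2, hz.1] at e
  have : z2 t + 2 * al * z1 t + z t = 0 := by rw [e]; ring
  linarith

end Pool.Agent.Beam
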