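import Pool.Agent.Beam.Defs
import Pool.Agent.Beam.ODE

set_option autoImplicit false

namespace Pool.Agent.Beam

open Real Filter Topology Set

/-- first facts: a `C⁴` function has derivative functions. -/
lemma derivs {z : ℝ → ℝ} (h : ContDiff ℝ 4 z) :
    (∀ t, HasDerivAt z (iteratedDeriv 1 z t) t) ∧
    (∀ t, HasDerivAt (iteratedDeriv 1 z) (iteratedDeriv 2 z t) t) ∧
    (∀ t, HasDerivAt (iteratedDeriv 2 z) (iteratedDeriv 3 z t) t) ∧
    (∀ t, HasDerivAt (iteratedDeriv 3 z) (iteratedDeriv 4 z t) t) := by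
  have key : ∀ n : ℕ, n < 4 → ∀ t, HasDerivAt (iteratedDeriv n z) (iteratedDeriv (n + 1) z t) t := by
    intro n hn t
    have hd : Differentiable ℝ (iteratedDeriv n z) :=
      h.differentiable_iteratedDeriv n (by exact_mod_cast hn)
    rw [iteratedDeriv_succ]
    exact (hd t).hasDerivAt
  refine ⟨fun t => ?_, key 1 (by norm_num), key 2 (by norm_num), key 3 (by norm_num)⟩
  have := key 0 (by norm_num) t
  rwa [iteratedDeriv_zero] at this

/-- the two level points -/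
lemma two_points {z : ℝ → ℝ} (heven : ∀ t, z (-t) = z t) (h2 : {t | z t = -1}.ncard = 2) :
    ∃ T, 0 < T ∧ z T = -1 ∧ ∀ t, 0 ≤ t → z t = -1 → t = T := by
  obtain ⟨x, y, hxy, hS⟩ := ncard_eq_two.1 h2
  have hx : z x = -1 := by
    have : x ∈ {t | z t = -1} := by rw [hS]; simp
    exact this
  have hy : z y = -1 := by
    have : y ∈ {t | z t = -1} := by rw [hS]; simp
    exact this
  have hall : ∀ t, z t = -1 → t = x ∨ t = y := by
    intro t ht
    have : t ∈ {t | z t = -1} := ht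
    rw [hS] at this
    simpa using this
  have hnx := hall (-x) (by rw [heven]; exact hx)
  have hny := hall (-y) (by rw [heven]; exact hy)
  have hyx : y = -x := by
    rcases hnx with h | h
    · -- x = 0
      have hx0 : x = 0 := by linarith
      rcases hny with h' | h'
      · exfalso; apply hxy; linarith
      · exfalso; apply hxy; linarith
    · exact h.symm
  have hx0 : x ≠ 0 := by
    rintro rfl; apply hxy; rw [hyx]; simp
  refine ⟨|x|, abs_pos.2 hx0, ?_, ?_⟩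
  · rcases abs_choice x with h | h <;> rw [h]
    · exact hx
    · rw [heven]; exact hx
  · intro t ht0 ht
    rcases hall t ht with h | h
    · subst h; rw [abs_of_nonneg ht0]
    · rw [h, hyx, ← abs_neg x, abs_of_nonneg]
      rw [← hyx, ← h]; exact ht0

/-- parameters -/
structure Par (c xi a b al be : ℝ) : Prop where
  hc : 0 < c
  ha : 0 < a
  hab : a < b
  hal : 0 < al
  hbe : 0 < be
  habc : a ^ 2 + b ^ 2 = c ^ 2
  habx : a ^ 2 * b ^ 2 = xi
  hone : al ^ 2 + be ^ 2 = 1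
  hal2 : 4 * al ^ 2 = 2 - c ^ 2

lemma par_exists {c xi : ℝ} (hc : 0 < c) (hc2 : c < sqrt 2) (hxi : 0 < xi) (hxi2 : xi < c ^ 4 / 4) :
    ∃ a b al be, Par c xi a b al be := by
  have hcc : c ^ 2 < 2 := by
    have := (lt_sqrt hc.le).1 hc2
    exact this
  set s := sqrt (c ^ 4 - 4 * xi) with hs
  have hs2 : s ^ 2 = c ^ 4 - 4 * xi := sq_sqrt (by linarith)
  have hspos : 0 < s := sqrt_pos.2 (by linarith)
  have hslt : s < c ^ 2 := by
    have : s ^ 2 < (c ^ 2) ^ 2 := by rw [hs2]; nlinarith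
    exact lt_of_pow_lt_pow_left₀ 2 (by positivity) this
  have h1 : 0 < (c ^ 2 - s) / 2 := by linarith
  have h2 : (c ^ 2 - s) / 2 < (c ^ 2 + s) / 2 := by linarith
  have q1 := sq_sqrt h1.le
  have q2 := sq_sqrt (h1.trans h2).le
  have h3 : 0 < (2 - c ^ 2) / 4 := by linarith
  have h4 : 0 < (2 + c ^ 2) / 4 := by positivity
  have q3 := sq_sqrt h3.le
  have q4 := sq_sqrt h4.le
  refine ⟨sqrt ((c ^ 2 - s) / 2), sqrt ((c ^ 2 + s) / 2), sqrt ((2 - c ^ 2) / 4),
    sqrt ((2 + c ^ 2) / 4), hc, sqrt_pos.2 h1, sqrt_lt_sqrt h1.le h2, sqrt_pos.2 h3,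
    sqrt_pos.2 h4, ?_, ?_, ?_, ?_⟩
  · rw [q1, q2]; ring
  · rw [q1, q2]
    nlinarith
  · rw [q3, q4]; ring
  · rw [q3]; ring

/-- The data extracted from a wave: half width `T`, slope `v`, amplitudes `P`, `Q`. -/
structure Data (c xi a b al be : ℝ) (z : ℝ → ℝ) (T v C D : ℝ) : Prop where
  hT : 0 < T
  hv : 0 ≤ v
  neg : ∀ t, 0 ≤ t → t < T → z t < -1
  zT : z T = -1
  out : ∀ t, T ≤ t → z t = exp (-(al * (t - T))) *
      (-cos (be * (t - T)) + (v - al) / be * sin (be * (t - T)))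
  pos : ∀ t, T < t → -1 < z t
  inn : ∀ t, 0 ≤ t → t ≤ T → z t + 1 = 1 / xi + C * cos (a * t) + D * cos (b * t)
  aC : (b ^ 2 - a ^ 2) * (C * cos (a * T)) = 1 - 2 * al * v - 1 / a ^ 2
  aS : (b ^ 2 - a ^ 2) * (a * (C * sin (a * T))) = 2 * al - (1 - a ^ 2) * v
  bC : (b ^ 2 - a ^ 2) * (D * cos (b * T)) = 1 / b ^ 2 - 1 + 2 * al * v
  bS : (b ^ 2 - a ^ 2) * (b * (D * sin (b * T))) = (1 - b ^ 2) * v - 2 * al

end Pool.Agent.Beam
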