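import Pool.Agent.Beam.Shape

set_option autoImplicit false

namespace Pool.Agent.Beam

open Real

lemma par_a {c xi a b al be : ℝ} (hp : Par c xi a b al be) : a ^ 2 < 1 := by
  have h1 := hp.habc
  have h2 := hp.hal2
  have h3 := hp.hal
  have h4 : a ^ 2 < b ^ 2 := by nlinarith [hp.ha, hp.hab]
  nlinarith

lemma cos_neg_of {x : ℝ} (h1 : π / 2 ≤ x) (h2 : x ≤ 3 * π / 2) : cos x ≤ 0 :=
  cos_nonpos_of_pi_div_two_le_of_le h1 (by linarith)

lemma aT_lt {c xi a b al be : ℝ} (hp : Par c xi a b al be) {z : ℝ → ℝ} {T v C D : ℝ}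
    (h : Data c xi a b al be z T v C D) : a * T < π / 2 := by
  have ha := hp.ha
  have hab := hp.hab
  have hb : 0 < b := ha.trans hab
  have hK : 0 < b ^ 2 - a ^ 2 := by nlinarith
  have ha1 := par_a hp
  have hxi : 0 < xi := by rw [← hp.habx]; positivity
  have hxi' : 0 < 1 / xi := by positivity
  have hpi := pi_pos
  have hX : C * cos (a * T) < 0 := by
    have h1 : 1 < 1 / a ^ 2 := by rw [lt_div_iff₀ (by positivity)]; linarith
    have h2 : 0 ≤ 2 * al * v := by have := hp.hal; have := h.hv; positivity
    have h3 : (b ^ 2 - a ^ 2) * (C * cos (a * T)) < 0 := by rw [h.aC]; linarith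
    by_contra hc
    push Not at hc
    have := mul_nonneg hK.le hc
    linarith
  have w : ∀ t, 0 ≤ t → t < T → 1 / xi + C * cos (a * t) + D * cos (b * t) < 0 := by
    intro t h0 h1
    have := h.inn t h0 h1.le
    have := h.neg t h0 h1
    linarith
  have w' : ∀ t, 0 ≤ t → t ≤ T → 1 / xi + C * cos (a * t) + D * cos (b * t) ≤ 0 := by
    intro t h0 h1
    rcases h1.lt_or_eq with h2 | h2
    · exact (w t h0 h2).le
    · have := h.inn t h0 h1
      rw [← this, h2, h.zT]; norm_num
  by_contra hcon
  push Not at hcon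
  rcases lt_or_ge (a * T) π with hlt | hge
  · -- case 1
    have hc : cos (a * T) ≤ 0 := cos_neg_of hcon (by linarith)
    have hc' : cos (a * T) < 0 := by
      rcases hc.lt_or_eq with h1 | h1
      · exact h1
      · rw [h1] at hX; simp at hX
    have hC : 0 < C := by
      by_contra hC; push Not at hC
      have := mul_nonneg_of_nonpos_of_nonpos hC hc
      linarith
    have htau : π / (2 * a) < T := by
      rw [div_lt_iff₀ (by positivity)]
      rcases hcon.lt_or_eq with h1 | h1
      · linarith
      · rw [← h1] at hc'; simp at hc'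
    have w0 := w 0 le_rfl h.hT
    simp only [mul_zero, cos_zero, mul_one] at w0
    have hD : D < 0 := by linarith
    have w1 := w (π / (2 * a)) (by positivity) htau
    have e1 : a * (π / (2 * a)) = π / 2 := by field_simp
    rw [e1, cos_pi_div_two, mul_zero, add_zero] at w1
    have hpos : 0 < cos (b * (π / (2 * a))) := by
      by_contra hn; push Not at hn
      have := mul_nonneg_of_nonpos_of_nonpos hD.le hn
      linarith
    have hm1 : π / 2 ≤ b * (π / (2 * a)) := by
      rw [← e1]; exact mul_le_mul_of_nonneg_right hab.le (by positivity)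
    have hm2 : 3 * π / 2 < b * (π / (2 * a)) := by
      by_contra hn; push Not at hn
      have := cos_neg_of hm1 hn
      linarith
    have hb3 : 3 * a < b := by
      have e2 : b * (π / (2 * a)) = (b / a) * (π / 2) := by field_simp
      rw [e2] at hm2
      have : 3 < b / a := by nlinarith
      rwa [lt_div_iff₀ ha] at this
    have hpb : π / b < T := by
      refine lt_trans ?_ htau
      apply div_lt_div_of_pos_left hpi (by positivity) (by linarith)
    have w2 := w (π / b) (by positivity) hpb
    have e3 : b * (π / b) = π := by field_simp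
    rw [e3, cos_pi] at w2
    have hcp : 0 ≤ cos (a * (π / b)) := by
      apply cos_nonneg_of_neg_pi_div_two_le_of_le
      · have : 0 ≤ a * (π / b) := by positivity
        linarith
      · have e4 : a * (π / b) = (a * π) / b := by ring
        rw [e4, div_le_iff₀ hb]; nlinarith
    have := mul_nonneg hC.le hcp
    linarith
  · -- case 2
    have hpa : π / a ≤ T := by rw [div_le_iff₀ ha]; linarith
    set m := b * (π / (2 * a)) with hm
    have key : ∀ t, 0 ≤ t → t ≤ π / a → 1 / xi + (D * cos m) * cos (m - b * t) ≤ 0 := by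
      intro t h0 h1
      have e1 := w' t h0 (h1.trans hpa)
      have e2 := w' (π / a - t) (by linarith) (by linarith)
      have e3 : a * (π / a - t) = π - a * t := by field_simp
      rw [e3, cos_pi_sub] at e2
      have e4 : b * (π / a - t) = m + (m - b * t) := by rw [hm]; field_simp; ring
      have e5 : b * t = m - (m - b * t) := by ring
      rw [e4, cos_add] at e2
      rw [e5, cos_sub] at e1
      nlinarith
    have hm1 : π / 2 ≤ m := by
      have e1 : a * (π / (2 * a)) = π / 2 := by field_simp
      rw [← e1]; exact mul_le_mul_of_nonneg_right hab.le (by positivity)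
    have k1 := key (π / (2 * a)) (by positivity) (by
      apply div_le_div_of_nonneg_left hpi.le ha; linarith)
    rw [← hm, sub_self, cos_zero, mul_one] at k1
    have k2 := key 0 le_rfl (by positivity)
    rw [mul_zero, sub_zero] at k2
    have hDm : D * cos m < 0 := by linarith
    have hcm : 0 < cos m := by
      by_contra hn; push Not at hn
      have := mul_nonneg_of_nonpos_of_nonpos hDm.le hn
      linarith
    have hm2 : 3 * π / 2 < m := by
      by_contra hn; push Not at hn
      have := cos_neg_of hm1 hn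
      linarith
    have k3 := key (π / (2 * a) - π / b) (by
        have : π / b ≤ π / (2 * a) := by
          apply div_le_div_of_nonneg_left hpi.le (by positivity)
          have e2 : m = (b / a) * (π / 2) := by rw [hm]; field_simp
          rw [e2] at hm2
          have : 3 < b / a := by nlinarith
          rw [lt_div_iff₀ ha] at this
          linarith
        linarith) (by
        have : π / (2 * a) ≤ π / a := by apply div_le_div_of_nonneg_left hpi.le ha; linarith
        have : 0 < π / b := by positivity
        linarith)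
    have e7 : m - b * (π / (2 * a) - π / b) = π := by
      rw [mul_sub, ← hm]; field_simp; ring
    rw [e7, cos_pi] at k3
    linarith

lemma aT_eq {c xi a b al be : ℝ} (hp : Par c xi a b al be) {z : ℝ → ℝ} {T v C D : ℝ}
    (h : Data c xi a b al be z T v C D) :
    a * T = arctan (a * v) - arctan (2 * al * a / (1 - a ^ 2)) := by
  have ha := hp.ha
  have hab := hp.hab
  have hb : 0 < b := ha.trans hab
  have hK : 0 < b ^ 2 - a ^ 2 := by nlinarith
  have ha1 := par_a hp
  have hal := hp.hal
  have hlt := aT_lt hp h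
  have hpos : 0 < a * T := mul_pos ha h.hT
  set q := 2 * al * a / (1 - a ^ 2) with hq
  have hq0 : 0 < q := by
    rw [hq]; apply div_pos (by positivity); linarith
  have hq1 : (1 - a ^ 2) * q = 2 * al * a := by
    rw [hq]; field_simp [(by linarith : (1 - a ^ 2) ≠ 0)]
  have hC : (b ^ 2 - a ^ 2) * C ≠ 0 := by
    intro h0
    have e := h.aC
    have : (b ^ 2 - a ^ 2) * (C * cos (a * T)) = 0 := by rw [← mul_assoc, h0, zero_mul]
    rw [this] at e
    have h1 : 1 < 1 / a ^ 2 := by rw [lt_div_iff₀ (by positivity)]; linarith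
    have h2 : 0 ≤ 2 * al * v := by have := h.hv; positivity
    linarith
  have e1 : sin (a * T) * (1 - a ^ 2 + 2 * al * a ^ 2 * v)
      = cos (a * T) * (a * ((1 - a ^ 2) * v - 2 * al)) := by
    apply mul_left_cancel₀ hC
    have f1 := h.aC
    have f2 := h.aS
    have f3 : a ^ 2 * (1 / a ^ 2) = 1 := by field_simp
    have f4 : (b ^ 2 - a ^ 2) * C * cos (a * T) = 1 - 2 * al * v - 1 / a ^ 2 := by
      rw [← f1]; ring
    have f5 : (b ^ 2 - a ^ 2) * C * (a * sin (a * T)) = 2 * al - (1 - a ^ 2) * v := by
      rw [← f2]; ring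
    have f6 : a ^ 2 * (1 - 2 * al * v - 1 / a ^ 2) = -(1 - a ^ 2 + 2 * al * a ^ 2 * v) := by
      linear_combination -f3
    apply mul_left_cancel₀ ha.ne'
    calc a * ((b ^ 2 - a ^ 2) * C * (sin (a * T) * (1 - a ^ 2 + 2 * al * a ^ 2 * v)))
        = ((b ^ 2 - a ^ 2) * C * (a * sin (a * T))) * (1 - a ^ 2 + 2 * al * a ^ 2 * v) := by ring
      _ = (2 * al - (1 - a ^ 2) * v) * (-(a ^ 2 * (1 - 2 * al * v - 1 / a ^ 2))) := by
          rw [f5, f6]; ring
      _ = a * ((b ^ 2 - a ^ 2) * C * (cos (a * T) * (a * ((1 - a ^ 2) * v - 2 * al)))) := by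
          rw [← f4]; ring
  have e2 : sin (a * T) * (1 + a * v * q) = cos (a * T) * (a * v - q) := by
    apply mul_left_cancel₀ (by linarith : (1 - a ^ 2) ≠ 0)
    linear_combination e1 + (sin (a * T) * (a * v) + cos (a * T)) * hq1
  have hs : sin (a * T - (arctan (a * v) - arctan q)) = 0 := by
    have c1 := cos_arctan_pos (a * v)
    have c2 := cos_arctan_pos q
    have s1 : sin (arctan (a * v)) = a * v * cos (arctan (a * v)) := by
      have := tan_arctan (a * v)
      rw [tan_eq_sin_div_cos, div_eq_iff c1.ne'] at this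
      exact this
    have s2 : sin (arctan q) = q * cos (arctan q) := by
      have := tan_arctan q
      rw [tan_eq_sin_div_cos, div_eq_iff c2.ne'] at this
      exact this
    rw [sin_sub, cos_sub, sin_sub, s1, s2]
    linear_combination (cos (arctan (a * v)) * cos (arctan q)) * e2
  have r1 := arctan_lt_pi_div_two (a * v)
  have r2 := arctan_lt_pi_div_two q
  have r3 : 0 < arctan q := arctan_pos.2 hq0
  have r4 : 0 ≤ arctan (a * v) := arctan_nonneg.2 (by have := h.hv; positivity)
  have hpi := pi_pos
  have := (sin_eq_zero_iff_of_lt_of_lt (by linarith) (by linarith)).1 hs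
  linarith

lemma bT_eq {c xi a b al be : ℝ} (hp : Par c xi a b al be) {z : ℝ → ℝ} {T v C D : ℝ}
    (h : Data c xi a b al be z T v C D) :
    ∃ k : ℤ, (k : ℝ) * π =
      b * T - arctan (b * v) + (π / 2 - arctan ((1 - b ^ 2) / (2 * al * b))) := by
  have ha := hp.ha
  have hab := hp.hab
  have hb : 0 < b := ha.trans hab
  have hK : 0 < b ^ 2 - a ^ 2 := by nlinarith
  have hal := hp.hal
  set r := (1 - b ^ 2) / (2 * al * b) with hr
  have hr1 : 2 * al * b * r = 1 - b ^ 2 := by
    rw [hr]; field_simp
  have f1 := h.bC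
  have f2 := h.bS
  have f3 : b ^ 2 * (1 / b ^ 2) = 1 := by field_simp
  have hD : (b ^ 2 - a ^ 2) * D ≠ 0 := by
    intro h0
    have g1 : 1 / b ^ 2 - 1 + 2 * al * v = 0 := by
      rw [← f1, ← mul_assoc, h0, zero_mul]
    have g2 : (1 - b ^ 2) * v - 2 * al = 0 := by
      rw [← f2]
      have : (b ^ 2 - a ^ 2) * (b * (D * sin (b * T))) = ((b ^ 2 - a ^ 2) * D) * (b * sin (b * T)) := by
        ring
      rw [this, h0, zero_mul]
    have g3 : 1 - b ^ 2 = -(2 * al * b ^ 2 * v) := by
      linear_combination b ^ 2 * g1 - f3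
    rw [g3] at g2
    have : 0 ≤ 2 * al * b ^ 2 * v * v := by have := h.hv; positivity
    linarith
  have e1 : sin (b * T) * (1 - b ^ 2 + 2 * al * b ^ 2 * v)
      = cos (b * T) * (b * ((1 - b ^ 2) * v - 2 * al)) := by
    apply mul_left_cancel₀ hD
    have f4 : (b ^ 2 - a ^ 2) * D * cos (b * T) = 1 / b ^ 2 - 1 + 2 * al * v := by
      rw [← f1]; ring
    have f5 : (b ^ 2 - a ^ 2) * D * (b * sin (b * T)) = (1 - b ^ 2) * v - 2 * al := by
      rw [← f2]; ring
    have f6 : b ^ 2 * (1 / b ^ 2 - 1 + 2 * al * v) = 1 - b ^ 2 + 2 * al * b ^ 2 * v := by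
      linear_combination f3
    apply mul_left_cancel₀ hb.ne'
    calc b * ((b ^ 2 - a ^ 2) * D * (sin (b * T) * (1 - b ^ 2 + 2 * al * b ^ 2 * v)))
        = ((b ^ 2 - a ^ 2) * D * (b * sin (b * T))) * (1 - b ^ 2 + 2 * al * b ^ 2 * v) := by ring
      _ = ((1 - b ^ 2) * v - 2 * al) * (b ^ 2 * (1 / b ^ 2 - 1 + 2 * al * v)) := by
          rw [f5, f6]
      _ = b * ((b ^ 2 - a ^ 2) * D * (cos (b * T) * (b * ((1 - b ^ 2) * v - 2 * al)))) := by
          rw [← f4]; ring
  have e2 : sin (b * T) * (r + b * v) = cos (b * T) * (b * v * r - 1) := by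
    apply mul_left_cancel₀ (by positivity : (2 * al * b) ≠ 0)
    linear_combination e1 + (sin (b * T) - cos (b * T) * (b * v)) * hr1
  have hs : sin (b * T - arctan (b * v) + (π / 2 - arctan r)) = 0 := by
    have c1 := cos_arctan_pos (b * v)
    have c2 := cos_arctan_pos r
    have s1 : sin (arctan (b * v)) = b * v * cos (arctan (b * v)) := by
      have := tan_arctan (b * v)
      rw [tan_eq_sin_div_cos, div_eq_iff c1.ne'] at this
      exact this
    have s2 : sin (arctan r) = r * cos (arctan r) := by
      have := tan_arctan r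
      rw [tan_eq_sin_div_cos, div_eq_iff c2.ne'] at this
      exact this
    rw [sin_add, sin_sub (b * T), cos_sub (b * T), sin_pi_div_two_sub, cos_pi_div_two_sub, s1, s2]
    linear_combination (cos (arctan (b * v)) * cos (arctan r)) * e2
  obtain ⟨k, hk⟩ := sin_eq_zero_iff.1 hs
  exact ⟨k, hk⟩

lemma v_bound {c xi a b al be : ℝ} (hp : Par c xi a b al be) {z : ℝ → ℝ} {T v C D : ℝ}
    (h : Data c xi a b al be z T v C D) :
    v - 2 * al < exp ((al / be) * (3 * π / 2 - arctan (al / be))) := by
  have hal := hp.hal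
  have hbe := hp.hbe
  have hone := hp.hone
  have hpi := pi_pos
  have hsq : sqrt (1 + (al / be) ^ 2) = 1 / be := by
    have : 1 + (al / be) ^ 2 = (1 / be) ^ 2 := by
      field_simp; linarith
    rw [this, sqrt_sq (by positivity)]
  have hcos : cos (arctan (al / be)) = be := by
    rw [cos_arctan, hsq]; field_simp
  have hsin : sin (arctan (al / be)) = al := by
    rw [sin_arctan, hsq]; field_simp
  set ph := arctan (al / be) with hph
  have hphlt : ph < π / 2 := arctan_lt_pi_div_two _
  set s := (3 * π / 2 - ph) / be with hs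
  have hspos : 0 < s := by rw [hs]; apply div_pos _ hbe; linarith
  have hbs : be * s = 3 * π / 2 - ph := by rw [hs]; field_simp
  have h1 := h.out (T + s) (by linarith)
  have h2 := h.pos (T + s) (by linarith)
  have e0 : T + s - T = s := by ring
  rw [e0, hbs] at h1
  have e1 : cos (3 * π / 2 - ph) = -al := by
    have : 3 * π / 2 - ph = π + (π / 2 - ph) := by ring
    rw [this, cos_add, cos_pi_div_two_sub, hsin]
    simp
  have e2 : sin (3 * π / 2 - ph) = -be := by
    have : 3 * π / 2 - ph = π + (π / 2 - ph) := by ring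
    rw [this, sin_add, sin_pi_div_two_sub, hcos]
    simp
  rw [e1, e2] at h1
  have e3 : - -al + (v - al) / be * -be = -(v - 2 * al) := by field_simp; ring
  rw [e3] at h1
  rw [h1] at h2
  have hE := exp_pos (-(al * s))
  have e4 : exp (-(al * s)) * exp (al * s) = 1 := by rw [← exp_add]; simp
  have e5 : al * s = al / be * (3 * π / 2 - ph) := by rw [hs]; field_simp
  rw [← e5]
  have hE2 := exp_pos (al * s)
  nlinarith

end Pool.Agent.Beam
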